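import Pool.Agent.helper92.VT.Spec

universe u

namespace Pool.Agent.helper92.VT

open MvPolynomial Pool.Agent.helper92.VC

theorem NGP (hSUB : SUB_stmt.{u}) : NGP_stmt.{u} := by
  intro k _ n d L D G hG hD
  set θ : Fin n × Fin (d + 1) → MvPolynomial ((Fin n × Fin (d + 1)) ⊕ Fin 0) k :=
    fun x => X (Sum.inl x) with hθ
  have h1 := hSUB (Fin n × Fin (d + 1)) ((Fin n × Fin (d + 1)) ⊕ Fin 0) k θ L G hG
  have h2 : aeval θ G =
      rename (Sum.inl : Fin n × Fin (d + 1) → (Fin n × Fin (d + 1)) ⊕ Fin 0) G := by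
    have h3 : aeval θ =
        rename (Sum.inl : Fin n × Fin (d + 1) → (Fin n × Fin (d + 1)) ⊕ Fin 0) := by
      apply algHom_ext
      intro i
      rw [aeval_X, rename_X]
    rw [h3]
  refine ⟨aeval θ G, ?_, ?_, ?_⟩
  · obtain ⟨l', h3, h4, h5⟩ := h1 [] SLP.nil (by
      rintro a ⟨x, rfl⟩
      exact Or.inl ⟨_, rfl⟩)
    exact ⟨l' ++ [], h3, by simpa using h4, h5 _ rfl⟩
  · rw [h2]
    exact (totalDegree_rename_le _ _).trans hD
  · intro e he
    rw [Fintype.sum_unique, h2, eval_rename, Sum.elim_comp_inl]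

end Pool.Agent.helper92.VT
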